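import Pool.Agent.Helper60K9.LF.Adic

/-!
# LF2: the conversion of the varieties with many correspondences
-/

set_option autoImplicit false

open CategoryTheory Polynomial

universe u

namespace Pool.Agent.Helper84K9.LF2

open Pool.Agent Pool.Agent.H914 Pool.Agent.H914.VarClass Pool.Agent.H914.VarClass.Obj
  Pool.Agent.H914.WeilCohomology Pool.Agent.Helper7K9.OL Pool.Agent.Helper11K9.Dens
  Pool.Agent.Helper60K9.EL Pool.Agent.Helper60K9.LF

variable {k : Type u} [Field k] {𝒱 : VarClass k} {ops : CycleOps 𝒱} {p : ℕ}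

lemma lef_eq (W : WeilCohomology.{u, 0} ops) {X : 𝒱.Obj} (D : X.Cycles) (n : ℕ) (x : W.H X) :
    (LinearMap.mulLeft W.K (W.cl X D) ^ n) x = lef W D n x := by
  rw [LinearMap.pow_mulLeft]
  rfl

lemma hard_conv (W : WeilCohomology.{u, 0} ops) {X : 𝒱.Obj} {D : X.Cycles}
    (h : Hard (Deg W) X.dim (lef W D)) : HardLefschetz W X D := by
  intro i hi
  obtain ⟨h1, h2⟩ := h i hi
  refine ⟨fun a ha h0 => h1 a ha (by rw [← lef_eq]; exact h0), fun b hb => ?_⟩
  obtain ⟨a, ha, hab⟩ := h2 b hb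
  exact ⟨a, ha, by rw [lef_eq]; exact hab⟩

lemma aeval_of_ann (W : WeilCohomology.{u, 0} ops) {X : 𝒱.Obj} (f : X ⟶ X) (P : ℚ[X])
    (x : W.H X) (h : Ann (rat W) (pb W f) P x) :
    aeval (W.map f).toLinearMap (P.map (algebraMap ℚ W.K)) x = 0 := by
  unfold Ann at h
  rw [Polynomial.sum_over_range] at h
  · rw [aeval_eq_sum_range, LinearMap.sum_apply]
    have h2 : ((P.map (algebraMap ℚ W.K)).natDegree) = P.natDegree :=
      Polynomial.natDegree_map _
    rw [h2]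
    refine (Finset.sum_congr rfl fun n _ => ?_).trans h
    rw [LinearMap.smul_apply, Polynomial.coeff_map, Module.End.pow_apply, eq_ratCast]
    rfl
  · intro n
    show ((0 : ℚ) : W.K) • _ = 0
    rw [Rat.cast_zero, zero_smul]

lemma mem_transDeg (W : WeilCohomology.{u, 0} ops) {X : 𝒱.Obj} (i : ℕ) (x : W.H X) :
    x ∈ transDeg W X i ↔ Trans W i x := by
  unfold transDeg H914.transcendental orthCompl Helper60K9.LF.Trans
  rw [Submodule.mem_inf]
  refine and_congr Iff.rfl ?_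
  simp only [Submodule.mem_iInf, LinearMap.mem_ker, Set.mem_iUnion, algClasses]
  constructor
  · intro h q z hz
    exact h (W.cl X z) ⟨q, z, hz, rfl⟩
  · rintro h c ⟨q, z, hz, rfl⟩
    exact h q z hz

theorem rich_conv (S : Adic ops p) (hp : 0 < p) (ℓ : ℕ) {V : 𝒱.Obj} {D : V.Cycles} {P : ℕ → ℚ[X]}
    (h : IsRich (S.W ℓ) V (S.Fr V) p (S.e V) D P) :
    IsRichOverFinite (S.sys hp ℓ) V D ∧
      ∀ i ≤ V.dim, KillsOn (R908.frobAll (S.sys hp ℓ) V) (transDeg (S.W ℓ) V i) (P i) := by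
  refine ⟨⟨h.divisor, ?_, hard_conv _ h.hard, ?_, h.homNum, ?_⟩, ?_⟩
  · have h1 := h.scaled
    show pb (S.W ℓ) (S.Fr V) (cls (S.W ℓ) D) = ((p ^ S.e V : ℕ) : (S.W ℓ).K) • cls (S.W ℓ) D
    rw [h1, Nat.cast_pow]
    rfl
  · obtain ⟨z, hz, h1⟩ := h.lambda
    refine ⟨z, hz, fun i hi a ha h0 => ?_⟩
    obtain ⟨h2, h3⟩ := h1 i hi a ha (by rw [← lef_eq]; exact h0)
    refine ⟨h2, fun j hj => ?_⟩
    rw [lef_eq, lef_eq]
    exact h3 j hj
  · intro i hi φ hφ hcomm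
    obtain ⟨n, c, z, h1⟩ := h.tate i hi φ φ.isLinear
      (fun x hx => (mem_transDeg _ _ _).1 (hφ x ((mem_transDeg _ _ _).2 hx)))
      (fun x hx => hcomm x ((mem_transDeg _ _ _).2 hx))
    refine ⟨∑ j, c j • (S.W ℓ).corr ((S.W ℓ).cl (V.prod V) (z j).1), ?_, fun x hx => ?_⟩
    · refine Submodule.sum_mem _ fun j _ => Submodule.smul_mem _ _ (Submodule.subset_span ?_)
      exact ⟨(z j).1, (z j).2, rfl⟩
    · rw [h1 x ((mem_transDeg _ _ _).1 hx), LinearMap.sum_apply]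
      rfl
  · intro i hi x hx
    exact aeval_of_ann _ _ _ _ (h.kills i hi x ((mem_transDeg _ _ _).1 hx))

end Pool.Agent.Helper84K9.LF2
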